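import Pool.Agent.H.MP_7c306c_al.Sqrt

namespace Pool.Agent.H.MP_7c306c_al

open ExteriorAlgebra

variable {F L : Type*} [Field F] [AddCommGroup L] [Module F L]

/-- parity automorphism -/
noncomputable def th : ExteriorAlgebra F L →ₐ[F] ExteriorAlgebra F L :=
  ExteriorAlgebra.map (-LinearMap.id)

@[simp] theorem th_ι (v : L) : th (ι F v) = -ι F v := by simp [th]

@[simp] theorem th_th (x : ExteriorAlgebra F L) : th (th x) = x := by
  have : (th : ExteriorAlgebra F L →ₐ[F] _).comp th = AlgHom.id F _ := by
    ext v; simp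
  exact AlgHom.congr_fun this x

theorem lind {P : ExteriorAlgebra F L → Prop} (h0 : ∀ r : F, P (algebraMap _ _ r))
    (add : ∀ x y, P x → P y → P (x + y)) (hι : ∀ x m, P x → P (ι F m * x)) (x) : P x :=
  CliffordAlgebra.left_induction (0 : QuadraticForm F L) (P := P) h0 add hι x

theorem ι_mul_comm (v : L) (x : ExteriorAlgebra F L) : ι F v * x = th x * ι F v := by
  induction x using ExteriorAlgebra.induction with
  | algebraMap r => simp [Algebra.commutes]
  | ι w => simpa [eq_neg_iff_add_eq_zero] using ι_add_mul_swap v w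
  | mul a b ha hb => rw [← mul_assoc, ha, mul_assoc, hb, map_mul, mul_assoc]
  | add a b ha hb => simp [mul_add, add_mul, ha, hb]

theorem parts (y : ExteriorAlgebra F L) :
    (∀ x, (y + th y) * x = x * (y + th y)) ∧ (∀ x, (y - th y) * x = th x * (y - th y)) := by
  induction y using lind with
  | h0 r =>
    refine ⟨fun x => ?_, fun x => by simp⟩
    simp [add_mul, mul_add, Algebra.commutes]
  | add a b ha hb =>
    refine ⟨fun x => ?_, fun x => ?_⟩
    · rw [map_add]; linear_combination (norm := noncomm_ring) ha.1 x + hb.1 x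
    · rw [map_add]; linear_combination (norm := noncomm_ring) ha.2 x + hb.2 x
  | hι z v hz =>
    refine ⟨fun x => ?_, fun x => ?_⟩
    · have e : ι F v * z + th (ι F v * z) = ι F v * (z - th z) := by
        simp [mul_sub, sub_eq_add_neg, mul_add]
      rw [e, mul_assoc, hz.2, ← mul_assoc, ι_mul_comm, th_th, mul_assoc]
    · have e : ι F v * z - th (ι F v * z) = ι F v * (z + th z) := by
        simp [mul_add]
      rw [e, mul_assoc, hz.1, ← mul_assoc, ι_mul_comm, mul_assoc]

theorem half (h2 : (2 : F) ≠ 0) {V : Type*} [AddCommGroup V] [Module F V] {x y : V}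
    (h : x + x = y + y) : x = y := by
  have : (2 : F) • x = (2 : F) • y := by simpa [two_smul] using h
  exact smul_right_injective V h2 this

theorem odd_comm (h2 : (2 : F) ≠ 0) {y : ExteriorAlgebra F L} (hy : th y = -y) (x) :
    y * x = th x * y := by
  have := (parts y).2 x
  rw [hy] at this
  apply half h2
  linear_combination (norm := noncomm_ring) this

theorem even_comm (h2 : (2 : F) ≠ 0) {y : ExteriorAlgebra F L} (hy : th y = y) (x) :
    y * x = x * y := by
  have := (parts y).1 x
  rw [hy] at this
  apply half h2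
  linear_combination (norm := noncomm_ring) this

theorem odd_sq (h2 : (2 : F) ≠ 0) {y : ExteriorAlgebra F L} (hy : th y = -y) : y * y = 0 := by
  have := odd_comm h2 hy y
  rw [hy] at this
  apply half h2
  linear_combination (norm := noncomm_ring) this

/-- all elements odd -/
def Od (M : Submodule F (ExteriorAlgebra F L)) : Prop := ∀ m ∈ M, th m = -m

/-- powers of the ideal generated by `M` -/
def G (M : Submodule F (ExteriorAlgebra F L)) (a : ℕ) : Submodule F (ExteriorAlgebra F L) :=
  M ^ a * ⊤

theorem G_zero (M : Submodule F (ExteriorAlgebra F L)) : G M 0 = ⊤ := by simp [G]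

theorem G_succ (M : Submodule F (ExteriorAlgebra F L)) (a : ℕ) : G M (a + 1) = M * G M a := by
  rw [G, G, pow_succ', mul_assoc]

theorem G_mul_right {M : Submodule F (ExteriorAlgebra F L)} {a : ℕ} {x} (hx : x ∈ G M a) (y) :
    x * y ∈ G M a := by
  induction a generalizing x with
  | zero => simp [G_zero]
  | succ a ih =>
    rw [G_succ] at hx ⊢
    induction hx using Submodule.mul_induction_on' with
    | mem_mul_mem m hm n hn => rw [mul_assoc]; exact Submodule.mul_mem_mul hm (ih hn)
    | add x _ y _ hx hy => rw [add_mul]; exact add_mem hx hy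

theorem G_mul_left (h2 : (2 : F) ≠ 0) {M : Submodule F (ExteriorAlgebra F L)} (hM : Od M) {a : ℕ}
    {x} (hx : x ∈ G M a) (y) : y * x ∈ G M a := by
  induction a generalizing x y with
  | zero => simp [G_zero]
  | succ a ih =>
    rw [G_succ] at hx ⊢
    induction hx using Submodule.mul_induction_on' with
    | mem_mul_mem m hm n hn =>
      have : y * m = m * th y := by rw [odd_comm h2 (hM m hm), th_th]
      rw [← mul_assoc, this, mul_assoc]
      exact Submodule.mul_mem_mul hm (ih hn _)
    | add x _ y _ hx hy => rw [mul_add]; exact add_mem hx hy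

theorem G_mul (h2 : (2 : F) ≠ 0) {M : Submodule F (ExteriorAlgebra F L)} (hM : Od M) {a b : ℕ}
    {x y} (hx : x ∈ G M a) (hy : y ∈ G M b) : x * y ∈ G M (a + b) := by
  induction a generalizing x with
  | zero => simpa using G_mul_left h2 hM hy x
  | succ a ih =>
    rw [add_right_comm]
    rw [G_succ] at hx ⊢
    induction hx using Submodule.mul_induction_on' with
    | mem_mul_mem m hm n hn => rw [mul_assoc]; exact Submodule.mul_mem_mul hm (ih hn)
    | add x _ y _ hx hy => rw [add_mul]; exact add_mem hx hy

theorem mem_G_one {M : Submodule F (ExteriorAlgebra F L)} {m} (hm : m ∈ M) : m ∈ G M 1 := by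
  rw [G_succ, G_zero]
  simpa using Submodule.mul_mem_mul hm (Submodule.mem_top (x := (1 : ExteriorAlgebra F L)))

theorem G_anti (h2 : (2 : F) ≠ 0) {M : Submodule F (ExteriorAlgebra F L)} (hM : Od M) (a : ℕ) :
    G M (a + 1) ≤ G M a := by
  rw [G_succ, Submodule.mul_le]
  intro m _ n hn
  exact G_mul_left h2 hM hn m

theorem G_map (h2 : (2 : F) ≠ 0) {M N : Submodule F (ExteriorAlgebra F L)} (hN : Od N)
    {f : Module.End F (ExteriorAlgebra F L)} (hf : IsAlg f) (h : ∀ m ∈ M, f m ∈ G N 1) {a : ℕ}
    {x} (hx : x ∈ G M a) : f x ∈ G N a := by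
  induction a generalizing x with
  | zero => simp [G_zero]
  | succ a ih =>
    rw [G_succ] at hx
    induction hx using Submodule.mul_induction_on' with
    | mem_mul_mem m hm n hn =>
      rw [hf.2, add_comm]; exact G_mul h2 hN (h m hm) (ih hn)
    | add x _ y _ hx hy => rw [map_add]; exact add_mem hx hy

theorem G_mono (h2 : (2 : F) ≠ 0) {M N : Submodule F (ExteriorAlgebra F L)} (hN : Od N)
    (h : M ≤ G N 1) (a : ℕ) : G M a ≤ G N a := fun _ hx =>
  G_map h2 hN IsAlg.one (fun _ hm => h hm) hx

theorem IsAlg.algebraMap {A : Type*} [Ring A] [Algebra F A] {f : Module.End F A} (hf : IsAlg f)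
    (r : F) : f (algebraMap F A r) = algebraMap F A r := hf.hom.commutes r

theorem raise0 (h2 : (2 : F) ≠ 0) {M : Submodule F (ExteriorAlgebra F L)} (hM : Od M)
    {f f' : Module.End F (ExteriorAlgebra F L)} (hf : IsAlg f) (hf' : IsAlg f') {c : ℕ}
    (h : ∀ v, f' (ι F v) - f (ι F v) ∈ G M c) (x) : f' x - f x ∈ G M c := by
  induction x using ExteriorAlgebra.induction with
  | algebraMap r => simp [hf.algebraMap, hf'.algebraMap]
  | ι w => exact h w
  | mul a b ha hb =>
    have : f' (a * b) - f (a * b) = (f' a - f a) * f' b + f a * (f' b - f b) := by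
      rw [hf.2, hf'.2]; noncomm_ring
    rw [this]
    exact add_mem (G_mul_right ha _) (G_mul_left h2 hM hb _)
  | add a b ha hb =>
    have : f' (a + b) - f (a + b) = (f' a - f a) + (f' b - f b) := by
      rw [map_add, map_add]; abel
    rw [this]
    exact add_mem ha hb

theorem raise (h2 : (2 : F) ≠ 0) {M : Submodule F (ExteriorAlgebra F L)} (hM : Od M)
    {f f' : Module.End F (ExteriorAlgebra F L)} (hf : IsAlg f) (hf' : IsAlg f')
    (hp : ∀ m ∈ M, f m ∈ G M 1)
    (h : ∀ v, f' (ι F v) - f (ι F v) ∈ G M 2) {a : ℕ} {x} (hx : x ∈ G M a) :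
    f' x - f x ∈ G M (a + 1) := by
  induction a generalizing x with
  | zero => exact G_anti h2 hM 1 (raise0 h2 hM hf hf' h x)
  | succ a ih =>
    rw [G_succ] at hx
    induction hx using Submodule.mul_induction_on' with
    | mem_mul_mem m hm n hn =>
      have e : f' (m * n) - f (m * n) = (f' m - f m) * f' n + f m * (f' n - f n) := by
        rw [hf.2, hf'.2]; noncomm_ring
      have h1 : f' n ∈ G M a := by
        have := add_mem (G_anti h2 hM a (ih hn)) (G_map h2 hM hf hp hn)
        simpa using this
      rw [e]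
      refine add_mem ?_ ?_
      · have := G_mul h2 hM (raise0 h2 hM hf hf' h m) h1
        rwa [add_comm] at this
      · have := G_mul h2 hM (hp m hm) (ih hn)
        rwa [add_comm] at this
    | add x _ y _ hx hy =>
      have : f' (x + y) - f (x + y) = (f' x - f x) + (f' y - f y) := by
        rw [map_add, map_add]; abel
      rw [this]
      exact add_mem hx hy

theorem G_insert (h2 : (2 : F) ≠ 0) {M : Submodule F (ExteriorAlgebra F L)} (hM : Od M)
    {s : ExteriorAlgebra F L} (hs : th s = -s) (a : ℕ) :
    G (F ∙ s ⊔ M) (a + 1) ≤ G M (a + 1) ⊔ (F ∙ s) * G M a := by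
  induction a with
  | zero =>
    rw [G_succ, G_succ, G_zero, G_zero, Submodule.sup_mul, sup_comm]
  | succ a ih =>
    rw [G_succ, Submodule.mul_le]
    intro m hm n hn
    obtain ⟨n1, hn1, n2, hn2, rfl⟩ := Submodule.mem_sup.mp (ih hn)
    obtain ⟨m1, hm1, m2, hm2, rfl⟩ := Submodule.mem_sup.mp hm
    have k1 : m1 * n2 = 0 := by
      obtain ⟨c, rfl⟩ := Submodule.mem_span_singleton.mp hm1
      clear hn hm
      induction hn2 using Submodule.mul_induction_on' with
      | mem_mul_mem m hm n hn =>
        obtain ⟨d, rfl⟩ := Submodule.mem_span_singleton.mp hm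
        simp [← mul_assoc, odd_sq h2 hs]
      | add x _ y _ hx hy => rw [mul_add, hx, hy, add_zero]
    have k2 : m2 * n2 ∈ (F ∙ s) * G M (a + 1) := by
      clear hn hm k1
      induction hn2 using Submodule.mul_induction_on' with
      | mem_mul_mem m hm n hn =>
        obtain ⟨d, rfl⟩ := Submodule.mem_span_singleton.mp hm
        have : m2 * (d • s * n) = (-d • s) * (m2 * n) := by
          rw [← mul_assoc, odd_comm h2 (hM m2 hm2)]
          simp [hs, mul_assoc]
        rw [this, G_succ]
        exact Submodule.mul_mem_mul (Submodule.mem_span_singleton.mpr ⟨_, rfl⟩)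
          (Submodule.mul_mem_mul hm2 hn)
      | add x _ y _ hx hy => rw [mul_add]; exact add_mem hx hy
    have e : (m1 + m2) * (n1 + n2) = m2 * n1 + (m1 * n1 + m2 * n2) := by
      rw [add_mul, mul_add, mul_add, k1]; abel
    rw [e]
    refine add_mem (Submodule.mem_sup_left ?_) (Submodule.mem_sup_right (add_mem ?_ k2))
    · rw [G_succ]; exact Submodule.mul_mem_mul hm2 hn1
    · exact Submodule.mul_mem_mul hm1 hn1

theorem G_nil (h2 : (2 : F) ≠ 0) {M : Submodule F (ExteriorAlgebra F L)} (hM : Od M)
    (hfg : M.FG) : ∃ N, G M N = ⊥ := by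
  classical
  obtain ⟨S, rfl⟩ := hfg
  induction S using Finset.induction_on with
  | empty => exact ⟨1, by simp [G_succ]⟩
  | insert s S _ ih =>
    rw [Finset.coe_insert, Submodule.span_insert] at hM ⊢
    have hM' : Od (Submodule.span F (S : Set (ExteriorAlgebra F L))) :=
      fun m hm => hM m (Submodule.mem_sup_right hm)
    obtain ⟨N, hN⟩ := ih hM'
    refine ⟨N + 1, le_bot_iff.mp ((G_insert h2 hM' (hM s (Submodule.mem_sup_left
      (Submodule.mem_span_singleton_self s))) N).trans ?_)⟩
    have := G_anti h2 hM' N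
    rw [hN] at this ⊢
    simpa using this

end Pool.Agent.H.MP_7c306c_al
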