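import Pool.Agent.H.MP_7c306c_al.Filt

set_option maxHeartbeats 400000

namespace Pool.Agent.H.MP_7c306c_al

open ExteriorAlgebra

variable {F L : Type*} [Field F] [AddCommGroup L] [Module F L]

/-- image of a subspace of generators -/
noncomputable def I (U : Submodule F L) : Submodule F (ExteriorAlgebra F L) := U.map (ι F)

theorem od_I (U : Submodule F L) : Od (I U) := by
  rintro _ ⟨v, -, rfl⟩; simp

theorem mem_I {U : Submodule F L} {u : L} (hu : u ∈ U) : ι F u ∈ I U := ⟨u, hu, rfl⟩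

/-- square of the augmentation ideal -/
noncomputable def T2 : Submodule F (ExteriorAlgebra F L) := G (I ⊤) 2

theorem lam_mul (a b : L) (y : ExteriorAlgebra F L) : ιInv (ι F a * (ι F b * y)) = 0 := by
  letI : Module Fᵐᵒᵖ L := Module.compHom _ ((RingHom.id F).fromOpposite mul_comm)
  haveI : IsCentralScalar F L := ⟨fun r m => rfl⟩
  show (toTrivSqZeroExt (ι F a * (ι F b * y))).snd = 0
  rw [← mul_assoc, map_mul, map_mul, toTrivSqZeroExt_ι, toTrivSqZeroExt_ι,
    TrivSqZeroExt.inr_mul_inr, zero_mul, TrivSqZeroExt.snd_zero]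

theorem lam_algebraMap (r : F) : ιInv (algebraMap F (ExteriorAlgebra F L) r) = 0 := by
  letI : Module Fᵐᵒᵖ L := Module.compHom _ ((RingHom.id F).fromOpposite mul_comm)
  haveI : IsCentralScalar F L := ⟨fun r m => rfl⟩
  show (toTrivSqZeroExt (algebraMap F (ExteriorAlgebra F L) r)).snd = 0
  rw [AlgHom.commutes]
  rfl

@[simp] theorem lam_ι (v : L) : ιInv (ι F v) = v := ι_leftInverse v

theorem lam_T2 {x : ExteriorAlgebra F L} (hx : x ∈ T2) : ιInv x = 0 := by
  rw [T2, G_succ, G_succ, G_zero] at hx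
  induction hx using Submodule.mul_induction_on' with
  | mem_mul_mem m hm n hn =>
    obtain ⟨a, -, rfl⟩ := hm
    induction hn using Submodule.mul_induction_on' with
    | mem_mul_mem m hm n hn =>
      obtain ⟨b, -, rfl⟩ := hm
      exact lam_mul a b n
    | add x _ y _ hx hy => rw [mul_add, map_add, hx, hy, add_zero]
  | add x _ y _ hx hy => rw [map_add, hx, hy, add_zero]

theorem decomp (h2 : (2 : F) ≠ 0) (x : ExteriorAlgebra F L) :
    ∃ (c : F) (v : L), x - algebraMap F _ c - ι F v ∈ T2 := by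
  induction x using lind with
  | h0 r => exact ⟨r, 0, by simp⟩
  | add a b ha hb =>
    obtain ⟨c, v, h⟩ := ha
    obtain ⟨d, w, h'⟩ := hb
    refine ⟨c + d, v + w, ?_⟩
    have := add_mem h h'
    rw [map_add, map_add]
    convert this using 1
    abel
  | hι z w hz =>
    obtain ⟨c, v, h⟩ := hz
    refine ⟨0, c • w, ?_⟩
    have h1 : ι F w * (z - algebraMap F _ c - ι F v) ∈ T2 := G_mul_left h2 (od_I ⊤) h _
    have h3 : ι F w * ι F v ∈ T2 :=
      G_mul h2 (od_I ⊤) (a := 1) (b := 1) (mem_G_one (mem_I (u := w) Submodule.mem_top))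
        (mem_G_one (mem_I (u := v) Submodule.mem_top))
    have := add_mem h1 h3
    convert this using 1
    simp [mul_sub, ← Algebra.commutes, Algebra.smul_def]

theorem isAlg_th : IsAlg ((th : ExteriorAlgebra F L →ₐ[F] _).toLinearMap) := isAlg_algHom _

theorem th_T2 (h2 : (2 : F) ≠ 0) {x : ExteriorAlgebra F L} (hx : x ∈ T2) : th x ∈ T2 := by
  refine G_map h2 (od_I ⊤) isAlg_th ?_ hx
  rintro _ ⟨v, -, rfl⟩
  simpa using mem_G_one (mem_I Submodule.mem_top)

theorem odd_decomp (h2 : (2 : F) ≠ 0) {x : ExteriorAlgebra F L} (hx : th x = -x) :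
    x - ι F (ιInv x) ∈ T2 := by
  obtain ⟨c, v, h⟩ := decomp h2 x
  have h1 := lam_T2 h
  rw [map_sub, map_sub, lam_algebraMap, lam_ι, sub_zero, sub_eq_zero] at h1
  have h3 := th_T2 h2 h
  rw [map_sub, map_sub, hx, AlgHom.commutes, th_ι] at h3
  have h4 := T2.smul_mem (2⁻¹ : F) (sub_mem h h3)
  rw [h1]
  convert h4 using 1
  have : x - algebraMap F _ c - ι F v - (-x - algebraMap F _ c - -ι F v)
      = (2 : F) • (x - ι F v) := by
    rw [two_smul]; abel
  rw [this, smul_smul, inv_mul_cancel₀ h2, one_smul]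

theorem odd_mem_G1 (h2 : (2 : F) ≠ 0) {x : ExteriorAlgebra F L} (hx : th x = -x) :
    x ∈ G (I (⊤ : Submodule F L)) 1 := by
  have := add_mem (G_anti h2 (od_I ⊤) 1 (odd_decomp h2 hx))
    (mem_G_one (mem_I (u := ιInv x) Submodule.mem_top))
  simpa using this

/-- subalgebra generated by a subspace of generators -/
noncomputable def P (U : Submodule F L) : Subalgebra F (ExteriorAlgebra F L) :=
  Algebra.adjoin F (I U : Set (ExteriorAlgebra F L))

theorem ι_mem_P {U : Submodule F L} {u : L} (hu : u ∈ U) : ι F u ∈ P U :=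
  Algebra.subset_adjoin (mem_I hu)

theorem P_mono {U V : Submodule F L} (h : U ≤ V) : P U ≤ P V :=
  Algebra.adjoin_mono (Submodule.map_mono h)

theorem exists_P (x : ExteriorAlgebra F L) : ∃ U : Submodule F L, U.FG ∧ x ∈ P U := by
  induction x using ExteriorAlgebra.induction with
  | algebraMap r => exact ⟨⊥, Submodule.fg_bot, Subalgebra.algebraMap_mem _ r⟩
  | ι w => exact ⟨F ∙ w, Submodule.fg_span_singleton w,
      ι_mem_P (Submodule.mem_span_singleton_self w)⟩
  | mul a b ha hb =>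
    obtain ⟨U, hU, h⟩ := ha
    obtain ⟨V, hV, h'⟩ := hb
    exact ⟨U ⊔ V, hU.sup hV, mul_mem (P_mono le_sup_left h) (P_mono le_sup_right h')⟩
  | add a b ha hb =>
    obtain ⟨U, hU, h⟩ := ha
    obtain ⟨V, hV, h'⟩ := hb
    exact ⟨U ⊔ V, hU.sup hV, add_mem (P_mono le_sup_left h) (P_mono le_sup_right h')⟩

theorem exists_P' {X : Submodule F (ExteriorAlgebra F L)} (hX : X.FG) :
    ∃ U : Submodule F L, U.FG ∧ ∀ x ∈ X, x ∈ P U := by
  induction X, hX using Submodule.fg_induction with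
  | singleton x =>
    obtain ⟨U, hU, h⟩ := exists_P x
    refine ⟨U, hU, fun y hy => ?_⟩
    obtain ⟨c, rfl⟩ := Submodule.mem_span_singleton.mp hy
    exact Subalgebra.smul_mem _ h c
  | sup X Y _ _ hX hY =>
    obtain ⟨U, hU, h⟩ := hX
    obtain ⟨V, hV, h'⟩ := hY
    refine ⟨U ⊔ V, hU.sup hV, fun z hz => ?_⟩
    obtain ⟨x, hx, y, hy, rfl⟩ := Submodule.mem_sup.mp hz
    exact add_mem (P_mono le_sup_left (h x hx)) (P_mono le_sup_right (h' y hy))

theorem eqOn_P {U : Submodule F L} {f g : Module.End F (ExteriorAlgebra F L)} (hf : IsAlg f)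
    (hg : IsAlg g) (h : ∀ u ∈ U, f (ι F u) = g (ι F u)) {x} (hx : x ∈ P U) : f x = g x := by
  induction hx using Algebra.adjoin_induction with
  | mem x hx => obtain ⟨u, hu, rfl⟩ := hx; exact h u hu
  | algebraMap r => rw [hf.algebraMap, hg.algebraMap]
  | add x y _ _ hx hy => rw [map_add, map_add, hx, hy]
  | mul x y _ _ hx hy => rw [hf.2, hg.2, hx, hy]

theorem map_P {U : Submodule F L} {f : Module.End F (ExteriorAlgebra F L)} (hf : IsAlg f)
    {S : Subalgebra F (ExteriorAlgebra F L)} (h : ∀ u ∈ U, f (ι F u) ∈ S) {x} (hx : x ∈ P U) :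
    f x ∈ S := by
  induction hx using Algebra.adjoin_induction with
  | mem x hx => obtain ⟨u, hu, rfl⟩ := hx; exact h u hu
  | algebraMap r => rw [hf.algebraMap]; exact S.algebraMap_mem r
  | add x y _ _ hx hy => rw [map_add]; exact add_mem hx hy
  | mul x y _ _ hx hy => rw [hf.2]; exact mul_mem hx hy

theorem mem_P_top (x : ExteriorAlgebra F L) : x ∈ P (⊤ : Submodule F L) := by
  obtain ⟨U, -, h⟩ := exists_P x
  exact P_mono le_top h

theorem alg_ext {f g : Module.End F (ExteriorAlgebra F L)} (hf : IsAlg f)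
    (hg : IsAlg g) (h : ∀ u, f (ι F u) = g (ι F u)) : f = g :=
  LinearMap.ext fun x => eqOn_P hf hg (fun u _ => h u) (mem_P_top x)

/-- projection data -/
structure IsPr (U : Submodule F L) (p : L →ₗ[F] L) : Prop where
  fix : ∀ u ∈ U, p u = u
  mem : ∀ v, p v ∈ U

theorem exists_pr (U : Submodule F L) : ∃ p, IsPr U p := by
  obtain ⟨g, hg⟩ := U.subtype.exists_leftInverse_of_injective U.ker_subtype
  refine ⟨U.subtype ∘ₗ g, fun u hu => ?_, fun v => (g v).2⟩
  have := LinearMap.congr_fun hg ⟨u, hu⟩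
  simpa using congrArg Subtype.val this

/-- induced map -/
noncomputable def mp (p : L →ₗ[F] L) : Module.End F (ExteriorAlgebra F L) :=
  (ExteriorAlgebra.map p).toLinearMap

theorem isAlg_mp (p : L →ₗ[F] L) : IsAlg (mp p) := isAlg_algHom _

@[simp] theorem mp_ι (p : L →ₗ[F] L) (v : L) : mp p (ι F v) = ι F (p v) := by simp [mp]

theorem lam_mp (p : L →ₗ[F] L) (x) : ιInv (mp p x) = p (ιInv x) :=
  LinearMap.congr_fun (ιInv_comp_map p) x

theorem th_mp (p : L →ₗ[F] L) (x) : th (mp p x) = mp p (th x) := by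
  have := alg_ext (isAlg_th.mul (isAlg_mp p)) ((isAlg_mp p).mul isAlg_th) (fun u => by simp)
  exact LinearMap.congr_fun this x

namespace IsPr
variable {U : Submodule F L} {p : L →ₗ[F] L} (h : IsPr U p)
include h

theorem mp_fix {x} (hx : x ∈ P U) : mp p x = x :=
  eqOn_P (isAlg_mp p) IsAlg.one (fun u hu => by simp [h.fix u hu]) hx

theorem mp_mem (x) : mp p x ∈ P U :=
  map_P (isAlg_mp p) (fun u _ => by simpa using ι_mem_P (h.mem u)) (mem_P_top x)

theorem mp_T2 (h2 : (2 : F) ≠ 0) {x} (hx : x ∈ T2) : mp p x ∈ G (I U) 2 := by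
  refine G_map h2 (od_I U) (isAlg_mp p) ?_ hx
  rintro _ ⟨v, -, rfl⟩
  simpa using mem_G_one (mem_I (h.mem v))

theorem mp_I : ∀ m ∈ I U, mp p m ∈ G (I U) 1 := by
  rintro _ ⟨v, -, rfl⟩
  simpa using mem_G_one (mem_I (h.mem v))

end IsPr

theorem T2_P (h2 : (2 : F) ≠ 0) {U : Submodule F L} {x} (hx : x ∈ T2) (hP : x ∈ P U) :
    x ∈ G (I U) 2 := by
  obtain ⟨p, hp⟩ := exists_pr U
  have := hp.mp_T2 h2 hx
  rwa [hp.mp_fix hP] at this

/-- the endomorphism with prescribed odd values on generators -/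
noncomputable def lft (h2 : (2 : F) ≠ 0) (s : L →ₗ[F] ExteriorAlgebra F L)
    (hs : ∀ v, th (s v) = -s v) : Module.End F (ExteriorAlgebra F L) :=
  (ExteriorAlgebra.lift F ⟨s, fun v => odd_sq h2 (hs v)⟩).toLinearMap

theorem isAlg_lft (h2 : (2 : F) ≠ 0) (s : L →ₗ[F] ExteriorAlgebra F L)
    (hs : ∀ v, th (s v) = -s v) : IsAlg (lft h2 s hs) := isAlg_algHom _

@[simp] theorem lft_ι (h2 : (2 : F) ≠ 0) (s : L →ₗ[F] ExteriorAlgebra F L)
    (hs : ∀ v, th (s v) = -s v) (v : L) : lft h2 s hs (ι F v) = s v := by simp [lft]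

theorem fg_I {U : Submodule F L} (hU : U.FG) : (I U).FG := hU.map _

theorem lft_injective (h2 : (2 : F) ≠ 0) (s : L →ₗ[F] ExteriorAlgebra F L)
    (hs : ∀ v, th (s v) = -s v) (hl : ∀ v, ιInv (s v) = v) :
    Function.Injective (lft h2 s hs) := by
  rw [injective_iff_map_eq_zero]
  intro x hx
  obtain ⟨U, hU, hxU⟩ := exists_P x
  obtain ⟨p, hp⟩ := exists_pr U
  obtain ⟨N, hN⟩ := G_nil h2 (od_I U) (fg_I hU)
  have hf' : IsAlg (mp p * lft h2 s hs * mp p) :=
    ((isAlg_mp p).mul (isAlg_lft h2 s hs)).mul (isAlg_mp p)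
  have key : ∀ v, (mp p * lft h2 s hs * mp p) (ι F v) - mp p (ι F v) ∈ G (I U) 2 := by
    intro v
    have h1 := hp.mp_T2 h2 (odd_decomp h2 (hs (p v)))
    rw [hl, map_sub, mp_ι, hp.fix _ (hp.mem v)] at h1
    simpa using h1
  have : ∀ a, x ∈ G (I U) a := by
    intro a
    induction a with
    | zero => simp [G_zero]
    | succ a ih =>
      have h1 := raise h2 (od_I U) (isAlg_mp p) hf' hp.mp_I key ih
      simp only [Module.End.mul_apply, hp.mp_fix hxU, hx, map_zero, zero_sub] at h1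
      simpa using h1
  simpa [hN] using this N

theorem nakayama (h2 : (2 : F) ≠ 0) {U : Submodule F L} (hU : U.FG)
    (s : L →ₗ[F] ExteriorAlgebra F L)
    (hs : ∀ v, th (s v) = -s v) (hl : ∀ v, ιInv (s v) = v) (hP : ∀ u ∈ U, s u ∈ P U)
    {S : Subalgebra F (ExteriorAlgebra F L)} (hS : ∀ u ∈ U, s u ∈ S) {x} (hx : x ∈ P U) :
    x ∈ S := by
  obtain ⟨p, hp⟩ := exists_pr U
  obtain ⟨N, hN⟩ := G_nil h2 (od_I U) (fg_I hU)
  have hf' : IsAlg (lft h2 s hs * mp p) := (isAlg_lft h2 s hs).mul (isAlg_mp p)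
  have key : ∀ v, (lft h2 s hs * mp p) (ι F v) - mp p (ι F v) ∈ G (I U) 2 := by
    intro v
    have h1 := odd_decomp h2 (hs (p v))
    rw [hl] at h1
    simpa using T2_P h2 h1 (sub_mem (hP _ (hp.mem v)) (ι_mem_P (hp.mem v)))
  have main : ∀ k a, a + k = N → ∀ y ∈ G (I U) a, y ∈ P U → y ∈ S := by
    intro k
    induction k with
    | zero =>
      intro a ha y hy _
      rw [add_zero] at ha
      rw [ha, hN, Submodule.mem_bot] at hy
      rw [hy]; exact zero_mem _
    | succ k ih =>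
      intro a ha y hy hyP
      have h1 := raise h2 (od_I U) (isAlg_mp p) hf' hp.mp_I key hy
      simp only [Module.End.mul_apply, hp.mp_fix hyP] at h1
      have h3 : lft h2 s hs y ∈ P U :=
        map_P (isAlg_lft h2 s hs) (fun u hu => by simpa using hP u hu) hyP
      have h4 : lft h2 s hs y ∈ S :=
        map_P (isAlg_lft h2 s hs) (fun u hu => by simpa using hS u hu) hyP
      have h5 := ih (a + 1) (by omega) _ h1 (sub_mem h3 hyP)
      simpa using sub_mem h4 h5
  exact main N 0 (by simp) x (by simp [G_zero]) hx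

theorem eq_zero_of_ι_mul (hL : ¬ (⊤ : Submodule F L).FG) {o : ExteriorAlgebra F L}
    (h : ∀ v, ι F v * o = 0) : o = 0 := by
  obtain ⟨U, hU, ho⟩ := exists_P o
  have hne : U ≠ ⊤ := fun e => hL (e ▸ hU)
  obtain ⟨v, -, hv⟩ := SetLike.exists_of_lt (lt_top_iff_ne_top.mpr hne)
  obtain ⟨d, hd1, hd0⟩ := U.exists_dual_map_eq_bot_of_notMem hv inferInstance
  have hdU : ∀ u ∈ U, d u = 0 := fun u hu => by
    have : d u ∈ U.map d := ⟨u, hu, rfl⟩
    rwa [hd0, Submodule.mem_bot] at this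
  have key : ∀ x ∈ P U, ∀ y : ExteriorAlgebra F L,
      CliffordAlgebra.contractLeft (Q := (0 : QuadraticForm F L)) d y = 0 →
      CliffordAlgebra.contractLeft (Q := (0 : QuadraticForm F L)) d (x * y) = 0 := by
    intro x hx
    induction hx using Algebra.adjoin_induction with
    | mem x hx =>
      obtain ⟨u, hu, rfl⟩ := hx
      intro y hy
      have := CliffordAlgebra.contractLeft_ι_mul (Q := (0 : QuadraticForm F L)) d u y
      rw [hdU u hu, hy] at this
      simpa using this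
    | algebraMap r =>
      intro y hy
      have := CliffordAlgebra.contractLeft_algebraMap_mul (Q := (0 : QuadraticForm F L)) d r y
      rw [hy] at this
      simpa using this
    | add x z _ _ hx hz =>
      intro y hy
      rw [add_mul, map_add, hx y hy, hz y hy, add_zero]
    | mul x z _ _ hx hz =>
      intro y hy
      rw [mul_assoc]; exact hx _ (hz y hy)
  have h1 := key o ho 1 (CliffordAlgebra.contractLeft_one _ d)
  rw [mul_one] at h1
  have h3 := CliffordAlgebra.contractLeft_ι_mul (Q := (0 : QuadraticForm F L)) d v o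
  rw [h1] at h3
  have h4 : CliffordAlgebra.ι (0 : QuadraticForm F L) v * o = 0 := h v
  rw [h4, map_zero, mul_zero, sub_zero] at h3
  exact (smul_eq_zero.mp h3.symm).resolve_left hd1

theorem even_of_central (h2 : (2 : F) ≠ 0) (hL : ¬ (⊤ : Submodule F L).FG)
    {x : ExteriorAlgebra F L} (h : ∀ y, x * y = y * x) : th x = x := by
  have : x - th x = 0 := by
    refine eq_zero_of_ι_mul hL fun v => ?_
    have h1 := ι_mul_comm v x
    have h3 := congrArg th (h (-ι F v))
    simp only [map_mul, map_neg, th_ι, neg_neg] at h3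
    have h4 := (parts x).2 (ι F v)
    apply half h2
    rw [th_ι] at h4
    linear_combination (norm := noncomm_ring) h4 - h (ι F v) + h3
  exact (sub_eq_zero.mp this).symm

end Pool.Agent.H.MP_7c306c_al
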