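import Pool.Agent.H.MP_7c306c_al.Step

set_option maxHeartbeats 400000

namespace Pool.Agent.H.MP_7c306c_al

open ExteriorAlgebra

variable {F L : Type*} [Field F] [AddCommGroup L] [Module F L]

theorem exists_good (h2 : (2 : F) ≠ 0) (b : Module.Basis ℕ F L)
    {ψ : Module.End F (ExteriorAlgebra F L)} (hψ : Inv ψ) :
    ∃ (s : L →ₗ[F] ExteriorAlgebra F L) (hs : Good ψ s),
      Function.Surjective (lft h2 s hs.odd) := by
  let St := {x : (L →ₗ[F] ExteriorAlgebra F L) × Submodule F L //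
    Good ψ x.1 ∧ x.2.FG ∧ ∀ u ∈ x.2, lin ψ u ∈ x.2}
  have hstep : ∀ (x : St) (v : L), ∃ y : St, x.1.2 ≤ y.1.2 ∧ v ∈ y.1.2 ∧
      (∀ u ∈ x.1.2, y.1.1 u = x.1.1 u) ∧
      ι F v ∈ Algebra.adjoin F (y.1.2.map y.1.1 : Set (ExteriorAlgebra F L)) := by
    intro x v
    obtain ⟨s', U, h1, h3, h4, h5, h6, h7, h8⟩ := step h2 hψ x.2.1 x.2.2.1 x.2.2.2 v
    exact ⟨⟨(s', U), h1, h3, h4⟩, h5, h6, h7, h8⟩
  choose nx hle hmem hext hadj using hstep
  let x0 : St := ⟨(avg ψ (lin ψ) (ι F), ⊥), good_avg h2 hψ th_ι lam_ι, Submodule.fg_bot, by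
    intro u hu
    rw [Submodule.mem_bot] at hu
    simp [hu]⟩
  let sq : ℕ → St := fun n => Nat.rec x0 (fun n x => nx x (b n)) n
  have hsq : ∀ n, sq (n + 1) = nx (sq n) (b n) := fun _ => rfl
  have mono : ∀ n m, n ≤ m → (sq n).1.2 ≤ (sq m).1.2 ∧
      ∀ u ∈ (sq n).1.2, (sq m).1.1 u = (sq n).1.1 u := by
    intro n m h
    induction m, h using Nat.le_induction with
    | base => exact ⟨le_rfl, fun _ _ => rfl⟩
    | succ m _ ih =>
      rw [hsq]
      exact ⟨ih.1.trans (hle _ _), fun u hu => by rw [hext _ _ u (ih.1 hu), ih.2 u hu]⟩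
  let s : L →ₗ[F] ExteriorAlgebra F L := b.constr F fun i => (sq (i + 1)).1.1 (b i)
  have ev : ∀ v, ∃ N, ∀ m, N ≤ m → s v = (sq m).1.1 v := by
    intro v
    have hv : v ∈ Submodule.span F (Set.range b) := b.mem_span v
    induction hv using Submodule.span_induction with
    | mem x hx =>
      obtain ⟨i, rfl⟩ := hx
      refine ⟨i + 1, fun m hm => ?_⟩
      rw [(mono _ _ hm).2 _ (by rw [hsq]; exact hmem _ _)]
      simp [s]
    | zero => exact ⟨0, fun m _ => by simp⟩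
    | add x y _ _ hx hy =>
      obtain ⟨N, hN⟩ := hx
      obtain ⟨M, hM⟩ := hy
      exact ⟨max N M, fun m hm => by
        rw [map_add, map_add, hN m (le_of_max_le_left hm), hM m (le_of_max_le_right hm)]⟩
    | smul c x _ hx =>
      obtain ⟨N, hN⟩ := hx
      exact ⟨N, fun m hm => by rw [map_smul, map_smul, hN m hm]⟩
  have onU : ∀ n, ∀ u ∈ (sq n).1.2, s u = (sq n).1.1 u := by
    intro n u hu
    obtain ⟨N, hN⟩ := ev u
    rw [hN (max N n) (le_max_left _ _), (mono _ _ (le_max_right N n)).2 u hu]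
  have hs : Good ψ s := by
    refine ⟨fun v => ?_, fun v => ?_, fun v => ?_⟩
    · obtain ⟨N, hN⟩ := ev v
      rw [hN N le_rfl]; exact (sq N).2.1.odd v
    · obtain ⟨N, hN⟩ := ev v
      rw [hN N le_rfl]; exact (sq N).2.1.lam v
    · obtain ⟨N, hN⟩ := ev v
      obtain ⟨M, hM⟩ := ev (lin ψ v)
      rw [hN _ (le_max_left N M), hM _ (le_max_right N M)]; exact (sq _).2.1.eqv v
  refine ⟨s, hs, fun x => ?_⟩
  have hb : ∀ n, ι F (b n) ∈ (isAlg_lft h2 s hs.odd).hom.range := by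
    intro n
    have h1 := hadj (sq n) (b n)
    rw [← hsq] at h1
    refine (Algebra.adjoin_le ?_ : _ ≤ (isAlg_lft h2 s hs.odd).hom.range) h1
    rintro _ ⟨u, hu, rfl⟩
    exact ⟨ι F u, by simp [onU (n + 1) u hu]⟩
  have hv : ∀ v, ι F v ∈ (isAlg_lft h2 s hs.odd).hom.range := by
    intro v
    have hv : v ∈ Submodule.span F (Set.range b) := b.mem_span v
    induction hv using Submodule.span_induction with
    | mem x hx => obtain ⟨i, rfl⟩ := hx; exact hb i
    | zero => simp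
    | add x y _ _ hx hy => rw [map_add]; exact add_mem hx hy
    | smul c x _ hx => rw [map_smul]; exact Subalgebra.smul_mem _ hx c
  exact map_P IsAlg.one (fun u _ => hv u) (mem_P_top x)

theorem eigenbasis (h2 : (2 : F) ≠ 0) (b : Module.Basis ℕ F L) (D : L →ₗ[F] L)
    (hD : ∀ v, D (D v) = v) :
    ∃ A : L ≃ₗ[F] L, ∀ i, D (A (b i)) = A (b i) ∨ D (A (b i)) = -A (b i) := by
  let p : Submodule F L := LinearMap.ker (D - LinearMap.id)
  let q : Submodule F L := LinearMap.ker (D + LinearMap.id)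
  have hp : ∀ v, v ∈ p ↔ D v = v := fun v => by simp [p, sub_eq_zero]
  have hq : ∀ v, v ∈ q ↔ D v = -v := fun v => by simp [q, add_eq_zero_iff_eq_neg]
  have hc : IsCompl p q := by
    constructor
    · rw [Submodule.disjoint_def]
      intro v h1 h3
      rw [hp] at h1
      rw [hq, h1] at h3
      exact half h2 (by simpa [add_eq_zero_iff_eq_neg] using h3)
    · rw [codisjoint_iff, eq_top_iff]
      intro v _
      have : v = (2⁻¹ : F) • (v + D v) + (2⁻¹ : F) • (v - D v) := by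
        rw [← smul_add, add_add_sub_cancel, half_add h2]
      rw [this]
      refine Submodule.add_mem_sup (p.smul_mem _ ?_) (q.smul_mem _ ?_)
      · rw [hp, map_add, hD, add_comm]
      · rw [hq, map_sub, hD, neg_sub]
  let c := ((Module.Basis.ofVectorSpace F p).prod (Module.Basis.ofVectorSpace F q)).map
    (Submodule.prodEquivOfIsCompl p q hc)
  have hcc : ∀ j, c j ∈ p ∨ c j ∈ q := by
    rintro (j | j)
    · left; simp [c]
    · right; simp [c]
  refine ⟨b.equiv c (b.indexEquiv c), fun i => ?_⟩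
  rw [Module.Basis.equiv_apply, ← hp, ← hq]
  exact hcc _

theorem not_fg (b : Module.Basis ℕ F L) : ¬ (⊤ : Submodule F L).FG := by
  intro h
  haveI : Module.Finite F L := ⟨h⟩
  exact Module.Finite.not_linearIndependent_of_infinite b b.linearIndependent

theorem thE_sq : (thE : Module.End F (ExteriorAlgebra F L)) * thE = 1 :=
  LinearMap.ext fun x => th_th x

theorem to_even (h2 : (2 : F) ≠ 0) (hL : ¬ (⊤ : Submodule F L).FG)
    {φ : Module.End F (ExteriorAlgebra F L)} (ha : IsAlg φ) (hφ : φ * φ = 1) :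
    ∃ g ψ : Module.End F (ExteriorAlgebra F L), IsAlg g ∧ IsUnit g ∧ Inv ψ ∧ φ * g = g * ψ := by
  have app : ∀ x, φ (φ x) = x := fun x => LinearMap.congr_fun hφ x
  have evn : ∀ x, th x = x → th (φ x) = φ x := by
    intro x hx
    refine even_of_central h2 hL fun y => ?_
    rw [← app y, ← ha.2, ← ha.2, even_comm h2 hx]
  set θ : Module.End F (ExteriorAlgebra F L) := thE with hθ
  have θ2 : θ * θ = 1 := thE_sq
  have aθ : IsAlg θ := isAlg_th
  have nil : IsNilpotent (θ * (φ * θ * φ) - 1) := by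
    refine ⟨2, LinearMap.ext fun x => ?_⟩
    have k1 : ∀ y, th y = y → th (φ (th (φ y))) - y = 0 := by
      intro y hy
      rw [evn y hy, app, hy, sub_self]
    have k2 : th (th (φ (th (φ x))) - x) = th (φ (th (φ x))) - x := by
      have e1 := evn (φ x + th (φ x)) (by rw [map_add, th_th, add_comm])
      rw [map_add, app, map_add] at e1
      rw [map_sub, th_th]
      linear_combination (norm := abel) -e1
    simpa [sq, hθ] using k1 _ k2
  obtain ⟨s, hs⟩ := exists_isSqrt h2 _ nil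
  have b2 : (φ * θ * φ) * (φ * θ * φ) = 1 := by
    calc (φ * θ * φ) * (φ * θ * φ) = φ * θ * (φ * φ) * θ * φ := by noncomm_ring
      _ = φ * (θ * θ) * φ := by rw [hφ]; noncomm_ring
      _ = 1 := by rw [θ2, mul_one, hφ]
  have i1 : θ * s * θ * s = 1 := hs.inv h2 θ2 (by
    calc θ * (θ * (φ * θ * φ)) * θ * (θ * (φ * θ * φ))
        = (θ * θ) * (φ * θ * φ) * (θ * θ) * (φ * θ * φ) := by noncomm_ring
      _ = 1 := by rw [θ2, one_mul, mul_one, b2])
  have i2 : φ * s * φ * s = 1 := hs.inv h2 hφ (by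
    calc φ * (θ * (φ * θ * φ)) * φ * (θ * (φ * θ * φ))
        = φ * θ * φ * θ * (φ * φ) * θ * (φ * θ * φ) := by noncomm_ring
      _ = φ * θ * φ * (θ * θ) * (φ * θ * φ) := by rw [hφ]; noncomm_ring
      _ = 1 := by rw [θ2, mul_one, b2])
  have d1 : (φ * θ * φ) * s = s * θ := dihedral h2 θ2 b2 hs
  have as : IsAlg s := hs.isAlg h2 (aθ.mul ((ha.mul aθ).mul ha))
  have j1 : s * θ * s = θ := by
    calc s * θ * s = (θ * θ) * s * θ * s := by rw [θ2, one_mul]
      _ = θ * (θ * s * θ * s) := by noncomm_ring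
      _ = θ := by rw [i1, mul_one]
  have j2 : s * φ * s = φ := by
    calc s * φ * s = (φ * φ) * s * φ * s := by rw [hφ, one_mul]
      _ = φ * (φ * s * φ * s) := by noncomm_ring
      _ = φ := by rw [i2, mul_one]
  have t2 : (s * θ) * (s * θ) = 1 := by
    calc (s * θ) * (s * θ) = (s * θ * s) * θ := by noncomm_ring
      _ = 1 := by rw [j1, θ2]
  have cφ : φ * (s * θ) = (s * θ) * φ := by
    calc φ * (s * θ) = φ * ((φ * θ * φ) * s) := by rw [d1]
      _ = (φ * φ) * θ * φ * s := by noncomm_ring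
      _ = (s * θ * s) * φ * s := by rw [hφ, j1, one_mul]
      _ = s * θ * (s * φ * s) := by noncomm_ring
      _ = _ := by rw [j2]
  have es : θ * (θ * s * θ * θ) = θ * θ * s * (θ * θ) := by noncomm_ring
  have nil2 : IsNilpotent (s * θ * θ - 1) := by
    rw [mul_assoc, θ2, mul_one]; exact hs.nil'
  obtain ⟨g, hg⟩ := exists_isSqrt h2 _ nil2
  have d2 : θ * g = g * (s * θ) := dihedral h2 t2 θ2 hg
  have ag : IsAlg g := hg.isAlg h2 ((as.mul aθ).mul aθ)
  set k := s * θ * θ * g with hk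
  have ak : IsAlg k := ((as.mul aθ).mul aθ).mul ag
  have kg : k * g = 1 := hg.sq'
  have gk : g * k = 1 := by rw [hk, ← mul_assoc]; exact hg.sq''
  refine ⟨k, g * φ * k, ak, ⟨⟨k, g, kg, gk⟩, rfl⟩, ⟨(ag.mul ha).mul ak, ?_, ?_⟩, ?_⟩
  · calc g * φ * k * (g * φ * k) = g * φ * (k * g) * φ * k := by noncomm_ring
      _ = g * (φ * φ) * k := by rw [kg]; noncomm_ring
      _ = 1 := by rw [hφ, mul_one, gk]
  · show θ * (g * φ * k) = g * φ * k * θ
    have d3 : s * θ * k = k * θ := by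
      calc s * θ * k = (k * g) * (s * θ) * k := by rw [kg, one_mul]
        _ = k * (g * (s * θ)) * k := by noncomm_ring
        _ = k * θ * (g * k) := by rw [← d2]; noncomm_ring
        _ = _ := by rw [gk, mul_one]
    calc θ * (g * φ * k) = (θ * g) * φ * k := by noncomm_ring
      _ = g * ((s * θ) * φ) * k := by rw [d2]; noncomm_ring
      _ = g * φ * (s * θ * k) := by rw [← cφ]; noncomm_ring
      _ = _ := by rw [d3]; noncomm_ring
  · calc φ * k = (k * g) * φ * k := by rw [kg, one_mul]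
      _ = _ := by noncomm_ring

theorem main_inv (h2 : (2 : F) ≠ 0) (b : Module.Basis ℕ F L)
    {φ : Module.End F (ExteriorAlgebra F L)} (ha : IsAlg φ) (hφ : φ * φ = 1) :
    ∃ Γ : ExteriorAlgebra F L ≃ₐ[F] ExteriorAlgebra F L,
      ∀ i, φ (Γ (ι F (b i))) = Γ (ι F (b i)) ∨ φ (Γ (ι F (b i))) = -Γ (ι F (b i)) := by
  obtain ⟨g, ψ, ag, ug, hψ, hc⟩ := to_even h2 (not_fg b) ha hφ
  obtain ⟨s, hs, hsurj⟩ := exists_good h2 b hψ
  obtain ⟨A, hA⟩ := eigenbasis h2 b (lin ψ) (hψ.lin_lin h2)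
  have aΓ : IsAlg (g * lft h2 s hs.odd * mp (A : L →ₗ[F] L)) :=
    (ag.mul (isAlg_lft _ _ _)).mul (isAlg_mp _)
  have bA : Function.Bijective (mp (A : L →ₗ[F] L)) :=
    ⟨ExteriorAlgebra.map_injective_field (LinearMap.ker_eq_bot.mpr A.injective),
      ExteriorAlgebra.map_surjective_iff.mpr A.surjective⟩
  have bΓ : Function.Bijective aΓ.hom :=
    (((Module.End.isUnit_iff _).mp ug).comp
      ⟨lft_injective h2 s hs.odd hs.lam, hsurj⟩).comp bA
  refine ⟨AlgEquiv.ofBijective aΓ.hom bΓ, fun i => ?_⟩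
  have e : AlgEquiv.ofBijective aΓ.hom bΓ (ι F (b i)) = g (s (A (b i))) := by
    simp
  have e2 : φ (g (s (A (b i)))) = g (s (lin ψ (A (b i)))) := by
    rw [← hs.eqv]; exact LinearMap.congr_fun hc _
  rw [e, e2]
  rcases hA i with h | h
  · left; rw [h]
  · right; rw [h, map_neg, map_neg]

theorem grading_inv {A : Type*} [Ring A] [Algebra F A] (h2 : (2 : F) ≠ 0)
    (A0 A1 : Submodule F A) (hc : IsCompl A0 A1) (h00 : A0 * A0 ≤ A0) (h01 : A0 * A1 ≤ A1)
    (h10 : A1 * A0 ≤ A1) (h11 : A1 * A1 ≤ A0) :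
    ∃ φ : Module.End F A, IsAlg φ ∧ φ * φ = 1 ∧ (∀ x, φ x = x → x ∈ A0) ∧
      (∀ x, φ x = -x → x ∈ A1) := by
  let φ : Module.End F A := LinearMap.ofIsCompl hc A0.subtype (-A1.subtype)
  have f0 : ∀ x ∈ A0, φ x = x := fun x hx => LinearMap.ofIsCompl_apply_left hc ⟨x, hx⟩
  have f1 : ∀ x ∈ A1, φ x = -x := fun x hx => LinearMap.ofIsCompl_apply_right hc ⟨x, hx⟩
  have dec : ∀ x, ∃ a ∈ A0, ∃ b ∈ A1, a + b = x := fun x =>
    Submodule.mem_sup.mp (by rw [hc.sup_eq_top]; exact Submodule.mem_top)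
  have mulφ : ∀ x y, φ (x * y) = φ x * φ y := by
    intro x y
    obtain ⟨a, ha, b, hb, rfl⟩ := dec x
    obtain ⟨c, hc', d, hd, rfl⟩ := dec y
    rw [add_mul, mul_add, mul_add]
    simp only [map_add]
    rw [f0 _ (h00 (Submodule.mul_mem_mul ha hc')), f1 _ (h01 (Submodule.mul_mem_mul ha hd)),
      f1 _ (h10 (Submodule.mul_mem_mul hb hc')), f0 _ (h11 (Submodule.mul_mem_mul hb hd)),
      f0 a ha, f1 b hb, f0 c hc', f1 d hd]
    noncomm_ring
  have sq : ∀ x, φ (φ x) = x := by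
    intro x
    obtain ⟨a, ha, b, hb, rfl⟩ := dec x
    rw [map_add, f0 a ha, f1 b hb, map_add, map_neg, f0 a ha, f1 b hb, neg_neg]
  refine ⟨φ, ⟨?_, mulφ⟩, LinearMap.ext sq, fun x hx => ?_, fun x hx => ?_⟩
  · have := mulφ 1 (φ 1)
    rw [one_mul, sq, mul_one] at this
    exact this.symm
  · obtain ⟨a, ha, b, hb, rfl⟩ := dec x
    rw [map_add, f0 a ha, f1 b hb, add_right_inj] at hx
    have : b = 0 := half h2 (by rw [add_zero]; nth_rewrite 1 [← hx]; simp)
    simpa [this] using ha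
  · obtain ⟨a, ha, b, hb, rfl⟩ := dec x
    rw [map_add, f0 a ha, f1 b hb, neg_add, add_left_inj] at hx
    have : a = 0 := half h2 (by rw [add_zero]; nth_rewrite 1 [hx]; simp)
    simpa [this] using hb

end Pool.Agent.H.MP_7c306c_al
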