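import Mathlib

namespace Pool.Agent.H.MP_7c306c_al

open Polynomial

section Ring
variable {F R : Type*} [Field F] [Ring R] [Algebra F R]

theorem poly_sqrt (h2 : (2 : F) ≠ 0) (M : ℕ) :
    ∃ q r : F[X], (1 + q * X) ^ 2 * (1 + X) = 1 + r * X ^ (M + 1) := by
  induction M with
  | zero => exact ⟨0, 1, by simp⟩
  | succ M ih =>
    obtain ⟨q, r, h⟩ := ih
    have hc : (C (2⁻¹ : F) : F[X]) * 2 = 1 := by
      have : (2 : F[X]) = C 2 := rfl
      rw [this, ← C_mul, inv_mul_cancel₀ h2, C_1]
    refine ⟨q - C 2⁻¹ * X ^ M * r,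
      -(r * (q + 1 + X * q)) + C 2⁻¹ ^ 2 * X ^ M * r ^ 2 * (1 + X), ?_⟩
    linear_combination h - (X ^ (M + 1) * r * (1 + X * q) * (1 + X)) * hc

theorem exists_sqrt (h2 : (2 : F) ≠ 0) (ω : R) (h : IsNilpotent (ω - 1)) :
    ∃ q ∈ Algebra.adjoin F {ω}, (1 + q * (ω - 1)) * (1 + q * (ω - 1)) * ω = 1 := by
  obtain ⟨M, hM⟩ := h
  obtain ⟨q, r, hq⟩ := poly_sqrt h2 M
  refine ⟨aeval (ω - 1) q, ?_, ?_⟩
  · have h1 : Algebra.adjoin F {ω - 1} ≤ Algebra.adjoin F {ω} := by
      rw [Algebra.adjoin_le_iff]
      rintro _ rfl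
      exact Subalgebra.sub_mem _ (Algebra.self_mem_adjoin_singleton F ω) (Subalgebra.one_mem _)
    exact h1 (Polynomial.aeval_mem_adjoin_singleton F _)
  · have := congrArg (aeval (ω - 1)) hq
    simp only [map_mul, map_add, map_pow, map_one, aeval_X, pow_succ (ω - 1) M, hM] at this
    simpa [sq] using this

theorem isUnit_two_add (h2 : (2 : F) ≠ 0) {n : R} (hn : IsNilpotent n) :
    IsUnit (n + 2) := by
  have h1 : IsUnit (2 : R) := by
    have : (2 : R) = algebraMap F R 2 := (map_ofNat _ 2).symm
    rw [this]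
    exact (IsUnit.mk0 _ h2).map _
  exact IsNilpotent.isUnit_add_right_of_commute hn h1 (Commute.ofNat_right n 2)

theorem eq_one_of_sq (h2 : (2 : F) ≠ 0) {a : R} (hn : IsNilpotent (a - 1)) (h : a * a = 1) :
    a = 1 := by
  have hu := isUnit_two_add h2 hn
  have : (a - 1) * (a - 1 + 2) = 0 := by
    linear_combination (norm := noncomm_ring) h
  rw [hu.mul_left_eq_zero] at this
  exact sub_eq_zero.mp this

theorem nil_mul_sub {a b : R} (hc : Commute a b) (ha : IsNilpotent (a - 1))
    (hb : IsNilpotent (b - 1)) : IsNilpotent (a * b - 1) := by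
  have : a * b - 1 = (a - 1) * b + (b - 1) := by noncomm_ring
  rw [this]
  have h1 : Commute (a - 1) b := hc.sub_left (Commute.one_left b)
  refine Commute.isNilpotent_add ?_ (h1.isNilpotent_mul_right ha) hb
  exact ((hc.sub_left (Commute.one_left b)).sub_right (Commute.one_right _)).mul_left
    ((Commute.refl b).sub_right (Commute.one_right _))

/-- data of an inverse square root -/
structure IsSqrt (F : Type*) [Field F] [Algebra F R] (ω t : R) : Prop where
  nil : IsNilpotent (ω - 1)
  ex : ∃ q ∈ Algebra.adjoin F {ω}, t = 1 + q * (ω - 1)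
  sq : t * t * ω = 1

theorem exists_isSqrt (h2 : (2 : F) ≠ 0) (ω : R) (h : IsNilpotent (ω - 1)) :
    ∃ t, IsSqrt F ω t := by
  obtain ⟨q, hq, h1⟩ := exists_sqrt h2 ω h
  exact ⟨_, h, ⟨q, hq, rfl⟩, h1⟩

namespace IsSqrt
variable {ω t : R} (h : IsSqrt F ω t)
include h

theorem mem : t ∈ Algebra.adjoin F {ω} := by
  obtain ⟨q, hq, rfl⟩ := h.ex
  exact Subalgebra.add_mem _ (Subalgebra.one_mem _) (Subalgebra.mul_mem _ hq
    (Subalgebra.sub_mem _ (Algebra.self_mem_adjoin_singleton F ω) (Subalgebra.one_mem _)))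

theorem mem_of {S : Subalgebra F R} (hS : ω ∈ S) : t ∈ S := by
  have : Algebra.adjoin F {ω} ≤ S := by
    rw [Algebra.adjoin_le_iff]; rintro _ rfl; exact hS
  exact this h.mem

theorem comm {a : R} (ha : Commute a ω) : Commute a t :=
  Algebra.commute_of_mem_adjoin_singleton_of_commute h.mem ha

theorem comm_self : Commute ω t := h.comm (Commute.refl ω)

theorem nil' : IsNilpotent (t - 1) := by
  obtain ⟨q, hq, rfl⟩ := h.ex
  have h1 : Commute ω q := Algebra.commute_of_mem_adjoin_singleton_of_commute hq (Commute.refl ω)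
  have : Commute q (ω - 1) := h1.symm.sub_right (Commute.one_right q)
  simpa using this.isNilpotent_mul_left h.nil

theorem sq' : ω * t * t = 1 := by
  rw [h.comm_self.eq, mul_assoc, h.comm_self.eq, ← mul_assoc, h.sq]

theorem sq'' : t * ω * t = 1 := by
  rw [← h.comm_self.eq, h.sq']

theorem inv (h2 : (2 : F) ≠ 0) {a : R} (ha : a * a = 1) (hu : a * ω * a * ω = 1) :
    a * t * a * t = 1 := by
  have e1 : ω * (a * ω * a) = 1 := by
    calc ω * (a * ω * a) = ω * (a * ω * a) * (ω * t * t) := by rw [h.sq', mul_one]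
      _ = ω * (a * ω * a * ω) * t * t := by noncomm_ring
      _ = 1 := by rw [hu, mul_one, h.sq']
  have c1 : Commute (a * t * a) (a * ω * a) := by
    show a * t * a * (a * ω * a) = a * ω * a * (a * t * a)
    calc a * t * a * (a * ω * a) = a * t * (a * a) * ω * a := by noncomm_ring
      _ = a * (t * ω) * a := by rw [ha]; noncomm_ring
      _ = a * (ω * t) * a := by rw [h.comm_self.eq]
      _ = a * ω * (a * a) * t * a := by rw [ha]; noncomm_ring
      _ = _ := by noncomm_ring
  have c2 : Commute (a * t * a) ω := by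
    show a * t * a * ω = ω * (a * t * a)
    calc a * t * a * ω = ω * (a * ω * a) * (a * t * a) * ω := by rw [e1, one_mul]
      _ = ω * (a * t * a) * (a * ω * a * ω) := by rw [mul_assoc ω, ← c1.eq]; noncomm_ring
      _ = _ := by rw [hu, mul_one]
  have c3 : Commute (a * t * a) t := h.comm c2
  have s1 : (a * t * a) * (a * t * a) = ω := by
    calc (a * t * a) * (a * t * a) = (a * t * a) * (a * t * a) * (a * ω * a * ω) := by
          rw [hu, mul_one]
      _ = a * t * (a * a) * t * (a * a) * ω * a * ω := by noncomm_ring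
      _ = a * (t * t * ω) * a * ω := by rw [ha]; noncomm_ring
      _ = ω := by rw [h.sq, mul_one, ha, one_mul]
  have n1 : IsNilpotent (a * t * a - 1) := by
    obtain ⟨k, hk⟩ := h.nil'
    refine ⟨k, ?_⟩
    have : ∀ k : ℕ, (a * t * a - 1) ^ k = a * (t - 1) ^ k * a := by
      intro k
      induction k with
      | zero => simp [ha]
      | succ k ih =>
        rw [pow_succ, pow_succ, ih]
        calc a * (t - 1) ^ k * a * (a * t * a - 1)
            = a * (t - 1) ^ k * (a * a) * t * a - a * (t - 1) ^ k * a := by noncomm_ring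
          _ = _ := by rw [ha]; noncomm_ring
    rw [this, hk]; simp
  refine eq_one_of_sq h2 (nil_mul_sub c3 n1 h.nil') ?_
  calc a * t * a * t * (a * t * a * t) = (a * t * a) * (t * (a * t * a)) * t := by noncomm_ring
    _ = (a * t * a) * (a * t * a) * t * t := by rw [← c3.eq]; noncomm_ring
    _ = 1 := by rw [s1, h.sq']

end IsSqrt

theorem dihedral (h2 : (2 : F) ≠ 0) {a b g : R} (ha : a * a = 1) (hb : b * b = 1)
    (h : IsSqrt F (a * b) g) : b * g = g * a := by
  have h1 : a * g * a * g = 1 := h.inv h2 ha (by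
    calc a * (a * b) * a * (a * b) = (a * a) * b * (a * a) * b := by noncomm_ring
      _ = 1 := by rw [ha]; simpa using hb)
  have h3 : g * a * g = a := by
    calc g * a * g = (a * a) * g * a * g := by rw [ha, one_mul]
      _ = a * (a * g * a * g) := by noncomm_ring
      _ = a := by rw [h1, mul_one]
  have h4 : b = g * g * a := by
    calc b = g * g * (a * b) * b := by rw [h.sq, one_mul]
      _ = g * g * a * (b * b) := by noncomm_ring
      _ = _ := by rw [hb, mul_one]
  rw [h4]
  calc g * g * a * g = g * (g * a * g) := by noncomm_ring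
    _ = _ := by rw [h3]

end Ring

section Mul
variable {F A : Type*} [Field F] [Ring A] [Algebra F A]

/-- a linear endomorphism that is an algebra endomorphism -/
def IsAlg (T : Module.End F A) : Prop := T 1 = 1 ∧ ∀ x y, T (x * y) = T x * T y

theorem IsAlg.one : IsAlg (1 : Module.End F A) := ⟨rfl, fun _ _ => rfl⟩

theorem IsAlg.mul {S T : Module.End F A} (hS : IsAlg S) (hT : IsAlg T) : IsAlg (S * T) :=
  ⟨by simp [hS.1, hT.1], fun x y => by simp [hS.2, hT.2]⟩

theorem isAlg_algHom (f : A →ₐ[F] A) : IsAlg (f.toLinearMap : Module.End F A) :=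
  ⟨map_one f, map_mul f⟩

/-- the algebra map -/
def IsAlg.hom {T : Module.End F A} (h : IsAlg T) : A →ₐ[F] A := AlgHom.ofLinearMap T h.1 h.2

@[simp] theorem IsAlg.hom_apply {T : Module.End F A} (h : IsAlg T) (x : A) : h.hom x = T x := rfl

/-- bilinear maps -/
def Bil (F A : Type*) [Field F] [Ring A] [Algebra F A] : Type _ := A →ₗ[F] A →ₗ[F] A

instance : AddCommGroup (Bil F A) := inferInstanceAs (AddCommGroup (A →ₗ[F] A →ₗ[F] A))
instance : Module F (Bil F A) := inferInstanceAs (Module F (A →ₗ[F] A →ₗ[F] A))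

/-- the underlying map -/
def Bil.ev (β : Bil F A) : A →ₗ[F] A →ₗ[F] A := β

@[simp] theorem Bil.ev_add (β γ : Bil F A) : (β + γ).ev = β.ev + γ.ev := rfl
@[simp] theorem Bil.ev_sub (β γ : Bil F A) : (β - γ).ev = β.ev - γ.ev := rfl
@[simp] theorem Bil.ev_zero : (0 : Bil F A).ev = 0 := rfl
@[simp] theorem Bil.ev_smul (c : F) (β : Bil F A) : (c • β).ev = c • β.ev := rfl

theorem Bil.ext {β γ : Bil F A} (h : ∀ x y, β.ev x y = γ.ev x y) : β = γ :=
  LinearMap.ext₂ (R := F) (S := F) h

/-- post-composition -/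
def opL (a : Module.End F A) : Module.End F (Bil F A) where
  toFun β := β.ev.compr₂ a
  map_add' β γ := Bil.ext fun x y => map_add a _ _
  map_smul' c β := Bil.ext fun x y => map_smul a _ _

/-- first argument -/
def opR (a : Module.End F A) : Module.End F (Bil F A) where
  toFun β := β.ev ∘ₗ a
  map_add' _ _ := Bil.ext fun _ _ => rfl
  map_smul' _ _ := Bil.ext fun _ _ => rfl

/-- second argument -/
def opS (a : Module.End F A) : Module.End F (Bil F A) where
  toFun β := β.ev.compl₂ a
  map_add' _ _ := Bil.ext fun _ _ => rfl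
  map_smul' _ _ := Bil.ext fun _ _ => rfl

@[simp] theorem opL_apply (a : Module.End F A) (β : Bil F A) (x y : A) :
    (opL a β).ev x y = a (β.ev x y) := rfl
@[simp] theorem opR_apply (a : Module.End F A) (β : Bil F A) (x y : A) :
    (opR a β).ev x y = β.ev (a x) y := rfl
@[simp] theorem opS_apply (a : Module.End F A) (β : Bil F A) (x y : A) :
    (opS a β).ev x y = β.ev x (a y) := rfl

theorem bil_ext {S T : Module.End F (Bil F A)} (h : ∀ β x y, (S β).ev x y = (T β).ev x y) :
    S = T := LinearMap.ext fun β => Bil.ext (h β)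

theorem opL_nil {a : Module.End F A} (h : IsNilpotent (a - 1)) : IsNilpotent (opL a - 1) := by
  obtain ⟨k, hk⟩ := h
  refine ⟨k, ?_⟩
  have : ∀ k : ℕ, (opL a - 1) ^ k = opL ((a - 1) ^ k) := by
    intro k
    induction k with
    | zero => exact bil_ext fun β x y => by simp
    | succ k ih => rw [pow_succ, pow_succ, ih]; exact bil_ext fun β x y => by simp
  rw [this, hk]; exact bil_ext fun β x y => by simp

theorem opR_nil {a : Module.End F A} (h : IsNilpotent (a - 1)) : IsNilpotent (opR a - 1) := by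
  obtain ⟨k, hk⟩ := h
  refine ⟨k, ?_⟩
  have : ∀ k : ℕ, (opR a - 1) ^ k = opR ((a - 1) ^ k) := by
    intro k
    induction k with
    | zero => exact bil_ext fun β x y => by simp
    | succ k ih => rw [pow_succ, pow_succ', ih]; exact bil_ext fun β x y => by simp
  rw [this, hk]; exact bil_ext fun β x y => by simp

theorem opS_nil {a : Module.End F A} (h : IsNilpotent (a - 1)) : IsNilpotent (opS a - 1) := by
  obtain ⟨k, hk⟩ := h
  refine ⟨k, ?_⟩
  have : ∀ k : ℕ, (opS a - 1) ^ k = opS ((a - 1) ^ k) := by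
    intro k
    induction k with
    | zero => exact bil_ext fun β x y => by simp
    | succ k ih => rw [pow_succ, pow_succ', ih]; exact bil_ext fun β x y => by simp
  rw [this, hk]; exact bil_ext fun β x y => by simp

/-- multiplication -/
def mu : Bil F A := LinearMap.mul F A

@[simp] theorem mu_ev (x y : A) : (mu : Bil F A).ev x y = x * y := rfl

theorem IsSqrt.isAlg (h2 : (2 : F) ≠ 0) {ω t : Module.End F A} (h : IsSqrt F ω t)
    (hω : IsAlg ω) : IsAlg t := by
  have hinj : ∀ x, t (t (ω x)) = x := fun x => by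
    simpa using LinearMap.congr_fun h.sq x
  have hinj' : ∀ x, ω (t (t x)) = x := fun x => by
    simpa using LinearMap.congr_fun h.sq' x
  constructor
  · obtain ⟨q, -, rfl⟩ := h.ex
    simp [hω.1]
  · have cRS : Commute (opR t) (opS t) := by
      exact bil_ext fun β x y => by simp
    have cL : Commute (opL t) (opR t * opS t) := by
      exact bil_ext fun β x y => by simp
    have n1 : IsNilpotent (opL t - 1 + (opR t * opS t - 1)) :=
      Commute.isNilpotent_add
        ((cL.sub_left (Commute.one_left _)).sub_right (Commute.one_right _))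
        (opL_nil h.nil') (nil_mul_sub cRS (opR_nil h.nil') (opS_nil h.nil'))
    have hu := isUnit_two_add h2 n1
    have e1 : (opL t - 1 + (opR t * opS t - 1) + 2) * (opL t - opR t * opS t)
        = opL t * opL t - (opR t * opS t) * (opR t * opS t) := by
      linear_combination (norm := noncomm_ring) cL.eq.symm
    have e2 : (opL t * opL t - (opR t * opS t) * (opR t * opS t)) mu = 0 := by
      refine Bil.ext fun x y => ?_
      simp only [LinearMap.sub_apply, Module.End.mul_apply, opL_apply, opR_apply, opS_apply,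
        mu_ev, LinearMap.zero_apply, Bil.ev_sub, Bil.ev_zero]
      rw [← hinj (t (t x) * t (t y)), hω.2, hinj', hinj', sub_self]
    rw [← e1, Module.End.mul_apply] at e2
    have hi := (Module.End.isUnit_iff _).mp hu
    have e3 := hi.1 (e2.trans (map_zero _).symm)
    intro x y
    have := congrArg (fun β : Bil F A => β.ev x y) e3
    simpa [sub_eq_zero] using this

end Mul

end Pool.Agent.H.MP_7c306c_al
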