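import Pool.Agent.H.MP_7c306c_al.Lin

set_option maxHeartbeats 400000

namespace Pool.Agent.H.MP_7c306c_al

open ExteriorAlgebra

section Abs
variable {F V : Type*} [Field F] [AddCommGroup V] [Module F V]

/-- operators preserving a family of subspaces -/
def Pres (H : ℕ → Submodule F V) : Subalgebra F (Module.End F V) where
  carrier := {T | ∀ a, ∀ x ∈ H a, T x ∈ H a}
  mul_mem' hS hT a x hx := hS a _ (hT a x hx)
  add_mem' hS hT a x hx := add_mem (hS a x hx) (hT a x hx)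
  algebraMap_mem' r a x hx := by simpa using (H a).smul_mem r hx

theorem mem_Pres {H : ℕ → Submodule F V} {T : Module.End F V} :
    T ∈ Pres H ↔ ∀ a, ∀ x ∈ H a, T x ∈ H a := Iff.rfl

/-- operators raising a filtration -/
def Raises (H : ℕ → Submodule F V) (T : Module.End F V) : Prop := ∀ a, ∀ x ∈ H a, T x ∈ H (a + 1)

variable {H : ℕ → Submodule F V}

theorem Raises.add {S T : Module.End F V} (hS : Raises H S) (hT : Raises H T) :
    Raises H (S + T) := fun a x hx => add_mem (hS a x hx) (hT a x hx)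

theorem Raises.mul_left {S T : Module.End F V} (hS : S ∈ Pres H) (hT : Raises H T) :
    Raises H (S * T) := fun a x hx => hS _ _ (hT a x hx)

theorem Raises.mul_right {S T : Module.End F V} (hS : Raises H S) (hT : T ∈ Pres H) :
    Raises H (S * T) := fun a x hx => hS _ _ (hT a x hx)

theorem Raises.pres {T : Module.End F V} (hT : Raises H T) (ha : ∀ a, H (a + 1) ≤ H a) :
    T ∈ Pres H := fun a x hx => ha a (hT a x hx)

theorem Raises.nil {T : Module.End F V} (hT : Raises H T) (h0 : H 0 = ⊤) {N : ℕ} (hN : H N = ⊥) :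
    IsNilpotent T := by
  have : ∀ k x, (T ^ k) x ∈ H k := by
    intro k x
    induction k with
    | zero => simp [h0]
    | succ k ih => rw [pow_succ']; exact hT _ _ ih
  refine ⟨N, LinearMap.ext fun x => ?_⟩
  simpa [hN] using this N x

theorem IsSqrt.raises {ω t : Module.End F V} (h : IsSqrt F ω t) (hp : ω ∈ Pres H)
    (hr : Raises H (ω - 1)) : Raises H (t - 1) := by
  obtain ⟨q, hq, rfl⟩ := h.ex
  have : Algebra.adjoin F {ω} ≤ Pres H := by
    rw [Algebra.adjoin_le_iff]; rintro _ rfl; exact hp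
  simpa using Raises.mul_left (this hq) hr

theorem IsSqrt.fix {ω t : Module.End F V} (h : IsSqrt F ω t) {x : V} (hx : ω x = x) :
    t x = x := by
  obtain ⟨q, -, rfl⟩ := h.ex
  simp [hx]

end Abs

variable {F L : Type*} [Field F] [AddCommGroup L] [Module F L]

/-- parity as a linear operator -/
noncomputable def thE : Module.End F (ExteriorAlgebra F L) :=
  (th : ExteriorAlgebra F L →ₐ[F] _).toLinearMap

@[simp] theorem thE_apply (x : ExteriorAlgebra F L) : thE x = th x := rfl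

theorem comm_th {f : Module.End F (ExteriorAlgebra F L)} (h : Commute thE f) (x) :
    th (f x) = f (th x) := LinearMap.congr_fun h.eq x

theorem odd_map {f : Module.End F (ExteriorAlgebra F L)} (h : Commute thE f) {x}
    (hx : th x = -x) : th (f x) = -f x := by rw [comm_th h, hx, map_neg]

theorem comm_lft (h2 : (2 : F) ≠ 0) (s : L →ₗ[F] ExteriorAlgebra F L)
    (hs : ∀ v, th (s v) = -s v) : Commute thE (lft h2 s hs) :=
  alg_ext (isAlg_th.mul (isAlg_lft h2 s hs)) ((isAlg_lft h2 s hs).mul isAlg_th)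
    (fun u => by simp [hs])

theorem comm_mp (p : L →ₗ[F] L) : Commute thE (mp p) := LinearMap.ext fun x => th_mp p x

/-- linear part of an operator -/
noncomputable def lin (f : Module.End F (ExteriorAlgebra F L)) : L →ₗ[F] L := ιInv ∘ₗ f ∘ₗ ι F

theorem lin_apply (f : Module.End F (ExteriorAlgebra F L)) (v : L) :
    lin f v = ιInv (f (ι F v)) := rfl

theorem map_T2 (h2 : (2 : F) ≠ 0) {f : Module.End F (ExteriorAlgebra F L)} (hf : IsAlg f)
    (h : Commute thE f) {x} (hx : x ∈ T2) : f x ∈ T2 := by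
  refine G_map h2 (od_I ⊤) hf ?_ hx
  rintro _ ⟨v, -, rfl⟩
  exact odd_mem_G1 h2 (odd_map h (th_ι v))

theorem lam_map (h2 : (2 : F) ≠ 0) {f : Module.End F (ExteriorAlgebra F L)} (hf : IsAlg f)
    (h : Commute thE f) {x} (hx : th x = -x) : ιInv (f x) = lin f (ιInv x) := by
  have := lam_T2 (map_T2 h2 hf h (odd_decomp h2 hx))
  rwa [map_sub, map_sub, sub_eq_zero] at this

/-- an even involutive automorphism -/
structure Inv (ψ : Module.End F (ExteriorAlgebra F L)) : Prop where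
  alg : IsAlg ψ
  sq : ψ * ψ = 1
  ev : Commute thE ψ

theorem Inv.app {ψ : Module.End F (ExteriorAlgebra F L)} (h : Inv ψ) (x) : ψ (ψ x) = x :=
  LinearMap.congr_fun h.sq x

theorem Inv.lin_lin (h2 : (2 : F) ≠ 0) {ψ : Module.End F (ExteriorAlgebra F L)} (h : Inv ψ)
    (v : L) : lin ψ (lin ψ v) = v := by
  rw [lin_apply ψ v, ← lam_map h2 h.alg h.ev (odd_map h.ev (th_ι v)), h.app, lam_ι]

/-- key conjugation: near a finite invariant set, `ψ` is conjugate to an involution that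
preserves a finitely generated standard subalgebra -/
theorem conj (h2 : (2 : F) ≠ 0) {ψ : Module.End F (ExteriorAlgebra F L)} (hψ : Inv ψ)
    {U : Submodule F L} (hU : U.FG) (hD : ∀ u ∈ U, lin ψ u ∈ U) :
    ∃ σ g : Module.End F (ExteriorAlgebra F L), Inv σ ∧ IsAlg g ∧ Commute thE g ∧
      ψ * g = g * σ ∧ (∀ x ∈ P U, σ x ∈ P U) ∧ (∀ x, σ x - ψ x ∈ T2) ∧ (∀ x, g x - x ∈ T2) ∧
      ∀ x ∈ P U, ψ x ∈ P U → σ x = ψ x ∧ g x = x := by
  obtain ⟨p, hp⟩ := exists_pr U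
  set s0 : L →ₗ[F] ExteriorAlgebra F L :=
    mp p ∘ₗ ψ ∘ₗ ι F ∘ₗ p + ψ ∘ₗ ι F ∘ₗ (LinearMap.id - p) with hs0
  have s0app : ∀ v, s0 v = mp p (ψ (ι F (p v))) + ψ (ι F (v - p v)) := fun v => rfl
  have hodd : ∀ v, th (s0 v) = -s0 v := by
    intro v
    rw [s0app, map_add, odd_map (comm_mp p) (odd_map hψ.ev (th_ι _)), odd_map hψ.ev (th_ι _)]
    abel
  set σ0 := lft h2 s0 hodd with hσ0
  have a0 : IsAlg σ0 := isAlg_lft _ _ _
  have c0 : Commute thE σ0 := comm_lft _ _ _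
  set Y : Submodule F (ExteriorAlgebra F L) := U.map ((mp p - 1) ∘ₗ ψ ∘ₗ ι F) with hY
  have hYT : ∀ y ∈ Y, y ∈ T2 := by
    rintro _ ⟨u, hu, rfl⟩
    have o1 : th (ψ (ι F u)) = -ψ (ι F u) := odd_map hψ.ev (th_ι _)
    have o2 : th (mp p (ψ (ι F u)) - ψ (ι F u)) = -(mp p (ψ (ι F u)) - ψ (ι F u)) := by
      rw [map_sub, odd_map (comm_mp p) o1, o1]; abel
    have := odd_decomp h2 o2
    rw [map_sub ιInv, lam_mp, ← lin_apply, hp.fix _ (hD u hu), sub_self, map_zero,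
      sub_zero] at this
    exact this
  obtain ⟨U', hU', hYP⟩ := exists_P' (X := Y) (hU.map _)
  set M : Submodule F (ExteriorAlgebra F L) := I U' ⊔ (I U').map ψ with hM
  have oM : Od M := by
    intro m hm
    obtain ⟨a, ha, _, ⟨b, hb, rfl⟩, rfl⟩ := Submodule.mem_sup.mp hm
    rw [map_add, od_I _ a ha, odd_map hψ.ev (od_I _ b hb)]; abel
  have fM : M.FG := (fg_I hU').sup ((fg_I hU').map _)
  have pM : ∀ m ∈ M, ψ m ∈ G M 1 := by
    intro m hm
    obtain ⟨a, ha, _, ⟨b, hb, rfl⟩, rfl⟩ := Submodule.mem_sup.mp hm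
    refine mem_G_one ?_
    rw [map_add, hψ.app]
    exact add_mem (Submodule.mem_sup_right ⟨a, ha, rfl⟩) (Submodule.mem_sup_left hb)
  have key : ∀ v, σ0 (ι F v) - ψ (ι F v) ∈ G M 2 := by
    intro v
    have hy : mp p (ψ (ι F (p v))) - ψ (ι F (p v)) ∈ Y := ⟨p v, hp.mem v, rfl⟩
    have h1 := G_mono h2 oM (fun m hm => mem_G_one (Submodule.mem_sup_left hm)) 2
      (T2_P h2 (hYT _ hy) (hYP _ hy))
    convert h1 using 1
    rw [hσ0, lft_ι, s0app, map_sub, map_sub]; abel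
  have GT : G M 2 ≤ T2 := G_mono h2 (od_I ⊤) (fun m hm => odd_mem_G1 h2 (oM m hm)) 2
  obtain ⟨N, hN⟩ := G_nil h2 oM fM
  let H : ℕ → Submodule F (ExteriorAlgebra F L) := fun a => Nat.casesOn a ⊤ fun b => G M (b + 2)
  have H0 : H 0 = ⊤ := rfl
  have HN : H (N + 1) = ⊥ := by
    have : G M (N + 2) ≤ G M N := (G_anti h2 oM (N + 1)).trans (G_anti h2 oM N)
    rw [hN] at this
    exact le_bot_iff.mp this
  have Ha : ∀ a, H (a + 1) ≤ H a := by
    intro a
    cases a with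
    | zero => exact le_top
    | succ a => exact G_anti h2 oM (a + 2)
  have pψ : ψ ∈ Pres H := by
    intro a x hx
    cases a with
    | zero => exact Submodule.mem_top
    | succ a => exact G_map h2 oM hψ.alg pM hx
  have r0 : Raises H (σ0 - ψ) := by
    intro a x hx
    cases a with
    | zero => exact raise0 h2 oM hψ.alg a0 key x
    | succ a => exact raise h2 oM hψ.alg a0 pM key hx
  have p0 : σ0 ∈ Pres H := by simpa using add_mem (r0.pres Ha) pψ
  have rω : Raises H (σ0 * σ0 - 1) := by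
    have : σ0 * σ0 - 1 = (σ0 - ψ) * σ0 + ψ * (σ0 - ψ) := by
      rw [← hψ.sq, sub_mul, mul_sub]; abel
    rw [this]
    exact (r0.mul_right p0).add (Raises.mul_left pψ r0)
  obtain ⟨t, ht⟩ := exists_isSqrt h2 (σ0 * σ0) (rω.nil H0 (N := N + 1) HN)
  have rt : Raises H (t - 1) := ht.raises (mul_mem p0 p0) rω
  have ct : Commute σ0 t := ht.comm ((Commute.refl σ0).mul_right (Commute.refl σ0))
  have hσ : Inv (σ0 * t) := by
    refine ⟨a0.mul (ht.isAlg h2 (a0.mul a0)), ?_, c0.mul_right (ht.comm (c0.mul_right c0))⟩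
    calc σ0 * t * (σ0 * t) = σ0 * (t * σ0) * t := by noncomm_ring
      _ = σ0 * σ0 * t * t := by rw [← ct.eq]; noncomm_ring
      _ = 1 := ht.sq'
  have rσ : Raises H (σ0 * t - ψ) := by
    have : σ0 * t - ψ = σ0 * (t - 1) + (σ0 - ψ) := by rw [mul_sub, mul_one]; abel
    rw [this]
    exact (Raises.mul_left p0 rt).add r0
  have pσ : σ0 * t ∈ Pres H := by simpa using add_mem (rσ.pres Ha) pψ
  have ru : Raises H (σ0 * t * ψ - 1) := by
    have : σ0 * t * ψ - 1 = (σ0 * t - ψ) * ψ := by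
      rw [← hψ.sq, sub_mul]
    rw [this]
    exact rσ.mul_right pψ
  obtain ⟨g, hg⟩ := exists_isSqrt h2 (σ0 * t * ψ) (ru.nil H0 (N := N + 1) HN)
  have rg : Raises H (g - 1) := hg.raises (mul_mem pσ pψ) ru
  have onP : ∀ x ∈ P U, σ0 x = mp p (ψ x) := by
    intro x hx
    refine eqOn_P a0 ((isAlg_mp p).mul hψ.alg) (fun u hu => ?_) hx
    rw [hσ0, lft_ι, s0app, hp.fix u hu]; simp
  have q0 : σ0 ∈ Pres (fun _ => Subalgebra.toSubmodule (P U)) := by
    intro _ x hx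
    rw [onP x hx]; exact hp.mp_mem _
  have qσ : σ0 * t ∈ Pres (fun _ => Subalgebra.toSubmodule (P U)) :=
    mul_mem q0 (ht.mem_of (mul_mem q0 q0))
  have fixσ : ∀ x ∈ P U, ψ x ∈ P U → (σ0 * t) x = ψ x := by
    intro x hx hx'
    have e1 : σ0 x = ψ x := by rw [onP x hx, hp.mp_fix hx']
    have e2 : (σ0 * σ0) x = x := by
      rw [Module.End.mul_apply, e1, onP _ hx', hψ.app, hp.mp_fix hx]
    rw [Module.End.mul_apply, ht.fix e2, e1]
  refine ⟨σ0 * t, g, hσ, hg.isAlg h2 (hσ.alg.mul hψ.alg), hg.comm (hσ.ev.mul_right hψ.ev),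
    dihedral h2 hσ.sq hψ.sq hg, fun x hx => qσ 0 x hx,
    fun x => GT (rσ 0 x Submodule.mem_top), fun x => GT (rg 0 x Submodule.mem_top),
    fun x hx hx' => ⟨fixσ x hx hx', hg.fix ?_⟩⟩
  rw [Module.End.mul_apply, fixσ _ hx' (by rwa [hψ.app]), hψ.app]

/-- an odd equivariant section of the linear part -/
structure Good (ψ : Module.End F (ExteriorAlgebra F L)) (s : L →ₗ[F] ExteriorAlgebra F L) :
    Prop where
  odd : ∀ v, th (s v) = -s v
  lam : ∀ v, ιInv (s v) = v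
  eqv : ∀ v, ψ (s v) = s (lin ψ v)

/-- averaging -/
noncomputable def avg (σ : Module.End F (ExteriorAlgebra F L)) (D : L →ₗ[F] L)
    (s : L →ₗ[F] ExteriorAlgebra F L) : L →ₗ[F] ExteriorAlgebra F L :=
  (2⁻¹ : F) • (s + σ ∘ₗ s ∘ₗ D)

theorem avg_apply (σ : Module.End F (ExteriorAlgebra F L)) (D : L →ₗ[F] L)
    (s : L →ₗ[F] ExteriorAlgebra F L) (v : L) :
    avg σ D s v = (2⁻¹ : F) • (s v + σ (s (D v))) := rfl

theorem half_add (h2 : (2 : F) ≠ 0) {V : Type*} [AddCommGroup V] [Module F V] (x : V) :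
    (2⁻¹ : F) • (x + x) = x := by
  rw [← two_smul F, smul_smul, inv_mul_cancel₀ h2, one_smul]

theorem good_avg (h2 : (2 : F) ≠ 0) {σ : Module.End F (ExteriorAlgebra F L)} (hσ : Inv σ)
    {s : L →ₗ[F] ExteriorAlgebra F L} (ho : ∀ v, th (s v) = -s v) (hl : ∀ v, ιInv (s v) = v) :
    Good σ (avg σ (lin σ) s) := by
  refine ⟨fun v => ?_, fun v => ?_, fun v => ?_⟩
  · rw [avg_apply, map_smul, map_add, ho, odd_map hσ.ev (ho _), ← smul_neg, neg_add]
  · rw [avg_apply, map_smul, map_add, hl, lam_map h2 hσ.alg hσ.ev (ho _), hl, hσ.lin_lin h2,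
      half_add h2]
  · rw [avg_apply, avg_apply, map_smul, map_add, hσ.app, hσ.lin_lin h2, add_comm]

theorem step (h2 : (2 : F) ≠ 0) {ψ : Module.End F (ExteriorAlgebra F L)} (hψ : Inv ψ)
    {s : L →ₗ[F] ExteriorAlgebra F L} (hs : Good ψ s) {U0 : Submodule F L} (hU0 : U0.FG)
    (hD0 : ∀ u ∈ U0, lin ψ u ∈ U0) (v : L) :
    ∃ (s' : L →ₗ[F] ExteriorAlgebra F L) (U : Submodule F L), Good ψ s' ∧ U.FG ∧
      (∀ u ∈ U, lin ψ u ∈ U) ∧ U0 ≤ U ∧ v ∈ U ∧ (∀ u ∈ U0, s' u = s u) ∧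
      ι F v ∈ Algebra.adjoin F (U.map s' : Set (ExteriorAlgebra F L)) := by
  obtain ⟨U1, hU1, hX⟩ := exists_P' (X := U0.map s ⊔ F ∙ ψ (ι F v))
    ((hU0.map _).sup (Submodule.fg_span_singleton _))
  set W : Submodule F L := U1 ⊔ U0 ⊔ F ∙ v with hW
  have fW : W.FG := (hU1.sup hU0).sup (Submodule.fg_span_singleton _)
  set U : Submodule F L := W ⊔ W.map (lin ψ) with hUdef
  have hU : U.FG := fW.sup (fW.map _)
  have hD : ∀ u ∈ U, lin ψ u ∈ U := by
    intro m hm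
    obtain ⟨a, ha, _, ⟨b, hb, rfl⟩, rfl⟩ := Submodule.mem_sup.mp hm
    rw [map_add, hψ.lin_lin h2]
    exact add_mem (Submodule.mem_sup_right ⟨a, ha, rfl⟩) (Submodule.mem_sup_left hb)
  have l1 : U1 ≤ U := le_sup_left.trans (le_sup_left.trans le_sup_left)
  have l0 : U0 ≤ U := le_sup_right.trans (le_sup_left.trans le_sup_left)
  have lv : v ∈ U :=
    Submodule.mem_sup_left (Submodule.mem_sup_right (Submodule.mem_span_singleton_self v))
  have sP : ∀ u ∈ U0, s u ∈ P U := fun u hu =>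
    P_mono l1 (hX _ (Submodule.mem_sup_left ⟨u, hu, rfl⟩))
  have vP : ψ (ι F v) ∈ P U :=
    P_mono l1 (hX _ (Submodule.mem_sup_right (Submodule.mem_span_singleton_self _)))
  obtain ⟨σ, g, hσ, ag, cg, hc, hσP, hσT, hgT, hfix⟩ := conj h2 hψ hU hD
  obtain ⟨p, hp⟩ := exists_pr U
  have hlin : lin σ = lin ψ := by
    ext w
    have := lam_T2 (hσT (ι F w))
    rwa [map_sub, sub_eq_zero] at this
  set s0 : L →ₗ[F] ExteriorAlgebra F L := mp p ∘ₗ s ∘ₗ p + ι F ∘ₗ (LinearMap.id - p) with hs0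
  have s0app : ∀ v, s0 v = mp p (s (p v)) + ι F (v - p v) := fun v => rfl
  have ho : ∀ v, th (s0 v) = -s0 v := by
    intro w
    rw [s0app, map_add, odd_map (comm_mp p) (hs.odd _), th_ι]; abel
  have hl : ∀ v, ιInv (s0 v) = v := by
    intro w
    rw [s0app, map_add, lam_mp, hs.lam, lam_ι, hp.fix _ (hp.mem w)]; abel
  have s0U : ∀ u ∈ U, s0 u = mp p (s u) := fun u hu => by
    rw [s0app, hp.fix u hu]; simp
  have gd := good_avg h2 hσ ho hl
  rw [hlin] at gd
  set s1 := avg σ (lin ψ) s0 with hs1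
  have s1P : ∀ u ∈ U, s1 u ∈ P U := fun u hu => by
    rw [hs1, avg_apply, s0U u hu, s0U _ (hD u hu)]
    exact Subalgebra.smul_mem _ (add_mem (hp.mp_mem _) (hσP _ (hp.mp_mem _))) _
  refine ⟨g ∘ₗ s1, U, ⟨fun w => odd_map cg (gd.odd w), fun w => ?_, fun w => ?_⟩, hU, hD, l0, lv,
    fun u hu => ?_, ?_⟩
  · have := lam_T2 (hgT (s1 w))
    rw [map_sub, sub_eq_zero, gd.lam] at this
    exact this
  · have := LinearMap.congr_fun hc (s1 w)
    rw [Module.End.mul_apply, Module.End.mul_apply, gd.eqv, hlin] at this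
    exact this
  · have e1 : ψ (s u) ∈ P U := by rw [hs.eqv]; exact sP _ (hD0 u hu)
    have e2 : ψ (s (lin ψ u)) = s u := by rw [hs.eqv, hψ.lin_lin h2]
    have e3 : s1 u = s u := by
      rw [hs1, avg_apply, s0U u (l0 hu), s0U _ (l0 (hD0 u hu)), hp.mp_fix (sP u hu),
        hp.mp_fix (sP _ (hD0 u hu)), (hfix _ (sP _ (hD0 u hu)) (e2 ▸ sP u hu)).1, e2,
        half_add h2]
    rw [LinearMap.comp_apply, e3, (hfix _ (sP u hu) e1).2]
  · have := nakayama h2 hU s1 gd.odd gd.lam s1P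
      (S := (Algebra.adjoin F (U.map (g ∘ₗ s1) : Set (ExteriorAlgebra F L))).comap ag.hom)
      (fun u hu => Algebra.subset_adjoin ⟨u, hu, rfl⟩) (ι_mem_P lv)
    rw [Subalgebra.mem_comap, IsAlg.hom_apply, (hfix _ (ι_mem_P lv) vP).2] at this
    exact this

end Pool.Agent.H.MP_7c306c_al
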